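import Pool.Agent.Lib.MP_f612df_an.Expand

open Filter Topology
open scoped SchwartzMap FourierTransform

namespace Pool.Agent.Results.MP_f612df_an.StrongFrames

open Pool.Agent.Lib.MP_f612df_an

/-- **Supercritical `𝔰`-frames are strong.** Let `p, q > 1` with `1/p + 1/q = 1`, let `(x, y)` be a
`(p, q)`-supercritical pair, and suppose that the analysis operator
`R f = ((f (x n))_n, (𝓕 f (y n))_n)` maps `𝓢(ℝ)` into `𝔰 ⊕ 𝔰` and is a topological isomorphism onto
its range. Then this range is complemented in `𝔰 ⊕ 𝔰`; equivalently `R` has a continuous linear left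
inverse, and there are Schwartz functions `g n`, `h n` with
`f = ∑ f (x n) g n + ∑ 𝓕 f (y n) h n` in `𝓢(ℝ)` for every `f` in `𝓢(ℝ)`. -/
theorem result (p q : ℝ) (hp : 1 < p) (_hq : 1 < q) (hpq : 1 / p + 1 / q = 1) (x y : ℤ → ℝ)
    (hS : IsSupercritical p q x y) (R : 𝓢(ℝ, ℂ) →ₗ[ℂ] RapidSeq × RapidSeq)
    (hR : IsAnalysisOperator x y R) (hE : IsEmbedding R) :
    (LinearMap.range R).ClosedComplemented ∧
    (∃ L : RapidSeq × RapidSeq →L[ℂ] 𝓢(ℝ, ℂ), ∀ f, L (R f) = f) ∧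
    ∃ g h : ℤ → 𝓢(ℝ, ℂ), ∀ f : 𝓢(ℝ, ℂ), Summable (fun n => f (x n) • g n) ∧
      Summable (fun n => 𝓕 f (y n) • h n) ∧
      f = (∑' n, f (x n) • g n) + ∑' n, 𝓕 f (y n) • h n :=
  main_theorem hp hpq hS hR hE

end Pool.Agent.Results.MP_f612df_an.StrongFrames
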